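import Mathlib

set_option autoImplicit false

open Set Metric Filter Topology

namespace Pool.Agent.N280.CHD

/-- the ambient space -/
abbrev E4 := EuclideanSpace ℝ (Fin 4)

lemma glue_hasDerivAt (x : ℝ) :
    HasDerivAt expNegInvGlue ((x⁻¹) ^ 2 * expNegInvGlue x) x := by
  have := expNegInvGlue.hasDerivAt_polynomial_eval_inv_mul 1 x
  simpa using this

lemma glue_deriv : deriv expNegInvGlue = fun x => (x⁻¹) ^ 2 * expNegInvGlue x :=
  funext fun x => (glue_hasDerivAt x).deriv

lemma glue_hasDerivAt2 (x : ℝ) :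
    HasDerivAt (fun x => (x⁻¹) ^ 2 * expNegInvGlue x)
      ((x⁻¹) ^ 3 * (x⁻¹ - 2) * expNegInvGlue x) x := by
  have := expNegInvGlue.hasDerivAt_polynomial_eval_inv_mul (Polynomial.X ^ 2) x
  have h1 : (fun x : ℝ => Polynomial.eval x⁻¹ (Polynomial.X ^ 2 : Polynomial ℝ) *
      expNegInvGlue x) = fun x => (x⁻¹) ^ 2 * expNegInvGlue x := by
    funext x; simp
  rw [h1] at this
  have h2 : Polynomial.eval x⁻¹ (Polynomial.X ^ 2 * (Polynomial.X ^ 2 -
      Polynomial.derivative (Polynomial.X ^ 2 : Polynomial ℝ))) = (x⁻¹) ^ 3 * (x⁻¹ - 2) := by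
    rw [Polynomial.derivative_X_pow]
    simp only [Polynomial.eval_mul, Polynomial.eval_pow, Polynomial.eval_X, Polynomial.eval_sub,
      Polynomial.eval_C]
    push_cast
    ring
  rw [h2] at this
  exact this

lemma glue_convexOn : ConvexOn ℝ (Iic (1 / 2 : ℝ)) expNegInvGlue := by
  apply convexOn_of_deriv2_nonneg (convex_Iic _)
  · exact (expNegInvGlue.contDiff (n := 0)).continuous.continuousOn
  · intro x _
    exact (glue_hasDerivAt x).differentiableAt.differentiableWithinAt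
  · rw [glue_deriv]
    intro x _
    exact (glue_hasDerivAt2 x).differentiableAt.differentiableWithinAt
  · intro x hx
    rw [interior_Iic, mem_Iio] at hx
    have h2 : deriv^[2] expNegInvGlue x = (x⁻¹) ^ 3 * (x⁻¹ - 2) * expNegInvGlue x := by
      rw [Function.iterate_succ, Function.iterate_one, Function.comp_apply, glue_deriv]
      exact (glue_hasDerivAt2 x).deriv
    rw [h2]
    rcases le_or_gt x 0 with h | h
    · rw [expNegInvGlue.zero_of_nonpos h]; simp
    · have h3 : 2 ≤ x⁻¹ := by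
        rw [le_inv_comm₀ (by norm_num) h]; linarith
      have h4 := expNegInvGlue.nonneg x
      have h5 : 0 ≤ x⁻¹ ^ 3 := by positivity
      have h6 : 0 ≤ x⁻¹ - 2 := by linarith
      positivity

lemma glue_monotone : Monotone expNegInvGlue := expNegInvGlue.monotone

/-- sum of squares of the last two coordinates -/
def hh (x : E4) : ℝ := x 2 ^ 2 + x 3 ^ 2

/-- the defining function -/
noncomputable def rho (x : E4) : ℝ :=
  x 0 ^ 2 + x 1 ^ 2 + Real.exp 4 * expNegInvGlue (hh x - 1) - 1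

/-- the neighbourhood -/
def UU : Set E4 := {x | hh x < 3 / 2}

/-- the domain -/
def Om : Set E4 := {x | x ∈ UU ∧ rho x < 0}

lemma hh_contDiff : ContDiff ℝ ((⊤ : ℕ∞) : WithTop ℕ∞) hh := by
  unfold hh
  fun_prop

lemma rho_contDiff : ContDiff ℝ ((⊤ : ℕ∞) : WithTop ℕ∞) rho := by
  unfold rho
  have h1 : ContDiff ℝ ((⊤ : ℕ∞) : WithTop ℕ∞) (fun x : E4 => expNegInvGlue (hh x - 1)) :=
    expNegInvGlue.contDiff.comp (hh_contDiff.sub contDiff_const)
  fun_prop

lemma hh_convex : ConvexOn ℝ univ hh := by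
  refine ⟨convex_univ, ?_⟩
  intro x _ y _ a b ha hb hab
  have e2 : (a • x + b • y) 2 = a * x 2 + b * y 2 := by simp
  have e3 : (a • x + b • y) 3 = a * x 3 + b * y 3 := by simp
  unfold hh
  rw [e2, e3, smul_eq_mul, smul_eq_mul]
  have hb' : b = 1 - a := by linarith
  subst hb'
  nlinarith [mul_nonneg (mul_nonneg ha hb) (sq_nonneg (x 2 - y 2)),
    mul_nonneg (mul_nonneg ha hb) (sq_nonneg (x 3 - y 3))]

lemma UU_convex : Convex ℝ UU := by
  have := hh_convex.convex_lt (3 / 2)
  simpa [UU] using this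

lemma UU_open : IsOpen UU := isOpen_lt hh_contDiff.continuous continuous_const

lemma rho_convex : ConvexOn ℝ UU rho := by
  refine ⟨UU_convex, ?_⟩
  intro x hx y hy a b ha hb hab
  have hx' : hh x < 3 / 2 := hx
  have hy' : hh y < 3 / 2 := hy
  have e0 : (a • x + b • y) 0 = a * x 0 + b * y 0 := by simp
  have e1 : (a • x + b • y) 1 = a * x 1 + b * y 1 := by simp
  have h1 := hh_convex.2 (mem_univ x) (mem_univ y) ha hb hab
  rw [smul_eq_mul, smul_eq_mul] at h1
  have h2 : hh (a • x + b • y) - 1 ≤ a * (hh x - 1) + b * (hh y - 1) := by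
    have : a * (hh x - 1) + b * (hh y - 1) = a * hh x + b * hh y - (a + b) := by ring
    rw [this, hab]; linarith
  have h3 := glue_monotone h2
  have h4 := glue_convexOn.2 (show hh x - 1 ∈ Iic (1 / 2 : ℝ) by simp only [mem_Iic]; linarith)
    (show hh y - 1 ∈ Iic (1 / 2 : ℝ) by simp only [mem_Iic]; linarith) ha hb hab
  rw [smul_eq_mul, smul_eq_mul, smul_eq_mul, smul_eq_mul] at h4
  have h5 := h3.trans h4
  have h6 := mul_le_mul_of_nonneg_left h5 (Real.exp_pos 4).le
  unfold rho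
  rw [e0, e1, smul_eq_mul, smul_eq_mul]
  have h7 : (a * x 0 + b * y 0) ^ 2 + (a * x 1 + b * y 1) ^ 2 ≤
      a * (x 0 ^ 2 + x 1 ^ 2) + b * (y 0 ^ 2 + y 1 ^ 2) := by
    have hb' : b = 1 - a := by linarith
    subst hb'
    nlinarith [mul_nonneg (mul_nonneg ha hb) (sq_nonneg (x 0 - y 0)),
      mul_nonneg (mul_nonneg ha hb) (sq_nonneg (x 1 - y 1))]
  nlinarith

lemma Om_open : IsOpen Om := UU_open.inter (isOpen_lt rho_contDiff.continuous continuous_const)

lemma Om_convex : Convex ℝ Om := rho_convex.convex_lt 0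

lemma Om_lt {x : E4} (hx : x ∈ Om) : x 0 ^ 2 + x 1 ^ 2 < 1 := by
  have h := hx.2
  unfold rho at h
  have := mul_nonneg (Real.exp_pos 4).le (expNegInvGlue.nonneg (hh x - 1))
  linarith

lemma Om_bounded : Bornology.IsBounded Om := by
  refine (Metric.isBounded_ball (x := (0 : E4)) (r := 2)).subset ?_
  intro x hx
  rw [mem_ball_zero_iff, EuclideanSpace.norm_eq, Real.sqrt_lt' (by norm_num)]
  have h1 := Om_lt hx
  have h2 : hh x < 3 / 2 := hx.1
  unfold hh at h2
  simp only [Fin.sum_univ_four, Real.norm_eq_abs, sq_abs]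
  linarith

lemma Om_hh {x : E4} (hx : x ∈ Om) : hh x ≤ 5 / 4 := by
  by_contra h
  push Not at h
  have h1 : expNegInvGlue (1 / 4) ≤ expNegInvGlue (hh x - 1) := glue_monotone (by linarith)
  have h2 : expNegInvGlue (1 / 4) = Real.exp (-4) := by
    unfold expNegInvGlue
    rw [if_neg (by norm_num)]
    norm_num
  have h3 : Real.exp 4 * Real.exp (-4) = 1 := by
    rw [← Real.exp_add]; simp
  have h4 := hx.2
  unfold rho at h4
  have h5 := mul_le_mul_of_nonneg_left h1 (Real.exp_pos 4).le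
  rw [h2, h3] at h5
  nlinarith [sq_nonneg (x 0), sq_nonneg (x 1)]

lemma closure_Om : closure Om ⊆ UU := by
  have h1 : closure Om ⊆ {x | hh x ≤ 5 / 4} :=
    closure_minimal (fun x hx => Om_hh hx) (isClosed_le hh_contDiff.continuous continuous_const)
  intro x hx
  have : hh x ≤ 5 / 4 := h1 hx
  show hh x < 3 / 2
  linarith

lemma rho_zero : rho 0 = -1 := by
  unfold rho hh
  simp [expNegInvGlue.zero_of_nonpos]

lemma zero_mem_UU : (0 : E4) ∈ UU := by
  show hh 0 < 3 / 2
  unfold hh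
  simp

lemma zero_mem_Om : (0 : E4) ∈ Om := ⟨zero_mem_UU, by rw [rho_zero]; norm_num⟩

lemma fderiv_ne {x : E4} (hx : x ∈ frontier Om) : fderiv ℝ rho x ≠ 0 := by
  have hxU : x ∈ UU := closure_Om (frontier_subset_closure hx)
  have hx0 : 0 ≤ rho x := by
    by_contra h
    push Not at h
    have : x ∈ interior Om := by rw [Om_open.interior_eq]; exact ⟨hxU, h⟩
    exact hx.2 this
  intro h0
  have hd : HasFDerivAt rho (fderiv ℝ rho x) x :=
    (rho_contDiff.differentiable (by simp) x).hasFDerivAt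
  rw [h0] at hd
  have hl : HasDerivAt (fun t : ℝ => x - t • x) (-x) 0 := by
    have := ((hasDerivAt_id (0:ℝ)).smul_const x).const_sub x
    simpa using this
  have hc : HasDerivAt (fun t : ℝ => rho (x - t • x)) 0 0 := by
    have hd' : HasFDerivAt rho (0 : E4 →L[ℝ] ℝ) (x - (0:ℝ) • x) := by simpa using hd
    have := hd'.comp_hasDerivAt (0:ℝ) hl
    rw [ContinuousLinearMap.zero_apply] at this
    exact this
  have hs := (hasDerivAt_iff_tendsto_slope.1 hc).mono_left
    (nhdsWithin_mono (0:ℝ) (show Ioi (0:ℝ) ⊆ {0}ᶜ from fun t ht => by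
      simp only [mem_compl_iff, mem_singleton_iff]; exact (ne_of_gt ht)))
  have hle : ∀ᶠ t in 𝓝[>] (0:ℝ), slope (fun t : ℝ => rho (x - t • x)) 0 t ≤ -1 := by
    have h1 : ∀ᶠ t in 𝓝[>] (0:ℝ), t < 1 := nhdsWithin_le_nhds (Iio_mem_nhds one_pos)
    filter_upwards [h1, self_mem_nhdsWithin] with t ht1 ht0
    have ht0' : (0:ℝ) < t := ht0
    have h2 := rho_convex.2 hxU zero_mem_UU (show (0:ℝ) ≤ 1 - t by linarith) ht0'.le
      (by ring)
    rw [rho_zero, smul_eq_mul, smul_eq_mul, smul_zero, add_zero] at h2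
    have h3 : (1 - t) • x = x - t • x := by rw [sub_smul, one_smul]
    rw [h3] at h2
    rw [slope_def_field]
    simp only [zero_smul, sub_zero]
    rw [div_le_iff₀ ht0']
    nlinarith
  have := le_of_tendsto hs hle
  linarith

end Pool.Agent.N280.CHD
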