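import Mathlib
import Pool.Agent.N280.CHD.Dom

set_option autoImplicit false

open Set Metric Filter Topology Complex ComplexConjugate

namespace Pool.Agent.N280.CHD

lemma circInt {F : ℂ → ℂ} {r : ℝ} (hr0 : 0 < r) (hr1 : r < 1) (hF : ContinuousOn F (ball 0 1)) :
    CircleIntegrable F 0 r := by
  apply ContinuousOn.circleIntegrable'
  rw [abs_of_pos hr0]
  refine hF.mono fun z hz => ?_
  rw [mem_sphere_zero_iff_norm] at hz
  rw [mem_ball_zero_iff, hz]; exact hr1

lemma avg_holo {F : ℂ → ℂ} {r : ℝ} (hr0 : 0 < r) (hr1 : r < 1)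
    (hF : DifferentiableOn ℂ F (ball 0 1)) : Real.circleAverage F 0 r = F 0 := by
  apply DiffContOnCl.circleAverage
  rw [abs_of_pos hr0]
  apply DifferentiableOn.diffContOnCl
  rw [closure_ball _ hr0.ne']
  exact hF.mono (closedBall_subset_ball hr1)

lemma avg_mul_id {F : ℂ → ℂ} {r : ℝ} (hr0 : 0 < r) (hr1 : r < 1)
    (hF : DifferentiableOn ℂ F (ball 0 1)) :
    Real.circleAverage (fun z => F z * z) 0 r = 0 := by
  have := avg_holo hr0 hr1 (show DifferentiableOn ℂ (fun z => F z * z) (ball 0 1) from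
    hF.mul differentiableOn_id)
  rw [this, mul_zero]

lemma avg_conj_id {r : ℝ} (hr0 : 0 < r) (hr1 : r < 1) :
    Real.circleAverage (fun z : ℂ => conj z) 0 r = 0 := by
  have h1 : Real.circleAverage (fun z : ℂ => z) 0 r = 0 :=
    avg_holo hr0 hr1 differentiableOn_id
  have h2 := (Complex.conjCLE.toContinuousLinearMap).circleAverage_comp_comm
    (f := fun z : ℂ => z) (c := 0) (R := r) (circInt hr0 hr1 continuousOn_id)
  rw [h1] at h2
  simpa [Function.comp_def] using h2

lemma avg_mul_conj {F : ℂ → ℂ} {r : ℝ} (hr0 : 0 < r) (hr1 : r < 1)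
    (hF : DifferentiableOn ℂ F (ball 0 1)) :
    Real.circleAverage (fun z => F z * conj z) 0 r = (r : ℂ) ^ 2 * deriv F 0 := by
  have hd : DifferentiableOn ℂ (dslope F 0) (ball 0 1) :=
    (Complex.differentiableOn_dslope (ball_mem_nhds (0 : ℂ) one_pos)).2 hF
  have h1 := avg_holo hr0 hr1 (hd.const_mul ((r : ℂ) ^ 2))
  have h2 : Real.circleAverage (fun z : ℂ => F 0 * conj z) 0 r = 0 := by
    have := Real.circleAverage_fun_smul (a := F 0) (f := fun z : ℂ => conj z) (c := 0) (R := r)
    simp only [smul_eq_mul] at this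
    rw [this, avg_conj_id hr0 hr1, mul_zero]
  have h3 : Real.circleAverage (fun z => F z * conj z) 0 r =
      Real.circleAverage (fun z => (r : ℂ) ^ 2 * dslope F 0 z + F 0 * conj z) 0 r := by
    apply Real.circleAverage_congr_sphere
    intro z hz
    rw [abs_of_pos hr0, mem_sphere_zero_iff_norm] at hz
    have hz0 : z ≠ 0 := by
      intro h; rw [h, norm_zero] at hz; linarith
    have h4 : z * conj z = (r : ℂ) ^ 2 := by
      rw [Complex.mul_conj, Complex.normSq_eq_norm_sq, hz]; push_cast; ring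
    show F z * conj z = (r : ℂ) ^ 2 * dslope F 0 z + F 0 * conj z
    rw [dslope_of_ne _ hz0, slope_def_field, ← h4, sub_zero]
    field_simp
    ring
  rw [h3, Real.circleAverage_fun_add (circInt hr0 hr1 (hd.const_mul _).continuousOn)
    (circInt hr0 hr1 (by fun_prop)), h1, h2, dslope_same, add_zero]

/-- a holomorphic pair -/
lemma pair_bound {F₀ F₁ : ℂ → ℂ} (h₀ : DifferentiableOn ℂ F₀ (ball 0 1))
    (h₁ : DifferentiableOn ℂ F₁ (ball 0 1))
    (hb : ∀ z ∈ ball (0:ℂ) 1, (F₀ z).re ^ 2 + (F₁ z).re ^ 2 ≤ 1) :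
    (deriv F₀ 0).re - (deriv F₁ 0).im ≤ 2 := by
  have key : ∀ r : ℝ, 0 < r → r < 1 → r * ((deriv F₀ 0).re - (deriv F₁ 0).im) ≤ 2 := by
    intro r hr0 hr1
    have hc0 := h₀.continuousOn
    have hc1 := h₁.continuousOn
    have e1 : Real.circleAverage (fun z => (F₀ z * z + F₀ z * conj z) +
        (-I) * (F₁ z * z - F₁ z * conj z)) 0 r =
        (r : ℂ) ^ 2 * deriv F₀ 0 + I * ((r : ℂ) ^ 2 * deriv F₁ 0) := by
      have i1 : CircleIntegrable (fun z => F₀ z * z) 0 r := circInt hr0 hr1 (by fun_prop)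
      have i2 : CircleIntegrable (fun z => F₀ z * conj z) 0 r := circInt hr0 hr1 (by fun_prop)
      have i3 : CircleIntegrable (fun z => F₁ z * z) 0 r := circInt hr0 hr1 (by fun_prop)
      have i4 : CircleIntegrable (fun z => F₁ z * conj z) 0 r := circInt hr0 hr1 (by fun_prop)
      have i5 : CircleIntegrable (fun z => F₀ z * z + F₀ z * conj z) 0 r :=
        circInt hr0 hr1 (by fun_prop)
      have i6 : CircleIntegrable (fun z => (-I) * (F₁ z * z - F₁ z * conj z)) 0 r :=
        circInt hr0 hr1 (by fun_prop)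
      rw [Real.circleAverage_fun_add i5 i6, Real.circleAverage_fun_add i1 i2,
        avg_mul_id hr0 hr1 h₀, avg_mul_conj hr0 hr1 h₀]
      have h5 := Real.circleAverage_fun_smul (a := -I)
        (f := fun z : ℂ => F₁ z * z - F₁ z * conj z) (c := 0) (R := r)
      simp only [smul_eq_mul] at h5
      rw [h5, Real.circleAverage_fun_sub i3 i4, avg_mul_id hr0 hr1 h₁, avg_mul_conj hr0 hr1 h₁]
      ring
    have i7 : CircleIntegrable (fun z => (F₀ z * z + F₀ z * conj z) +
        (-I) * (F₁ z * z - F₁ z * conj z)) 0 r := circInt hr0 hr1 (by fun_prop)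
    have e2 := Complex.reCLM.circleAverage_comp_comm i7
    rw [e1] at e2
    have e3 : Real.circleAverage (fun z => 2 * ((F₀ z).re * z.re + (F₁ z).re * z.im)) 0 r =
        r ^ 2 * ((deriv F₀ 0).re - (deriv F₁ 0).im) := by
      have e4 : (Complex.reCLM ∘ fun z => (F₀ z * z + F₀ z * conj z) +
          (-I) * (F₁ z * z - F₁ z * conj z)) =
          fun z => 2 * ((F₀ z).re * z.re + (F₁ z).re * z.im) := by
        funext z
        simp
        ring
      rw [e4] at e2
      rw [e2]
      have : (r : ℂ) ^ 2 = ((r ^ 2 : ℝ) : ℂ) := by push_cast; ring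
      rw [this]
      simp only [Complex.reCLM_apply, Complex.add_re, Complex.mul_re,
        Complex.I_re, Complex.I_im, Complex.im_ofReal_mul, Complex.ofReal_re, Complex.ofReal_im]
      ring
    have e5 : Real.circleAverage (fun z => 2 * ((F₀ z).re * z.re + (F₁ z).re * z.im)) 0 r ≤
        2 * r := by
      apply Real.circleAverage_mono_on_of_le_circle
      · apply ContinuousOn.circleIntegrable'
        rw [abs_of_pos hr0]
        have : ContinuousOn (fun z => 2 * ((F₀ z).re * z.re + (F₁ z).re * z.im)) (ball 0 1) := by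
          have a0 : ContinuousOn (fun z => (F₀ z).re) (ball 0 1) :=
            Complex.continuous_re.comp_continuousOn hc0
          have a1 : ContinuousOn (fun z => (F₁ z).re) (ball 0 1) :=
            Complex.continuous_re.comp_continuousOn hc1
          fun_prop
        refine this.mono fun z hz => ?_
        rw [mem_sphere_zero_iff_norm] at hz
        rw [mem_ball_zero_iff, hz]; exact hr1
      · intro z hz
        rw [abs_of_pos hr0, mem_sphere_zero_iff_norm] at hz
        have hb' := hb z (by rw [mem_ball_zero_iff, hz]; exact hr1)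
        have hz2 : z.re ^ 2 + z.im ^ 2 = r ^ 2 := by
          rw [← hz, ← Complex.normSq_eq_norm_sq, Complex.normSq_apply]; ring
        have h6 : ((F₀ z).re * z.re + (F₁ z).re * z.im) ^ 2 ≤ r ^ 2 := by
          nlinarith [sq_nonneg ((F₀ z).re * z.im - (F₁ z).re * z.re)]
        have := abs_le_of_sq_le_sq h6 hr0.le
        linarith [this, le_abs_self ((F₀ z).re * z.re + (F₁ z).re * z.im)]
    rw [e3] at e5
    have : r * (r * ((deriv F₀ 0).re - (deriv F₁ 0).im)) ≤ r * 2 := by nlinarith
    exact le_of_mul_le_mul_left this hr0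
  have hlim : Tendsto (fun r : ℝ => r * ((deriv F₀ 0).re - (deriv F₁ 0).im)) (𝓝[<] 1)
      (𝓝 (1 * ((deriv F₀ 0).re - (deriv F₁ 0).im))) :=
    (tendsto_id.mul_const _).mono_left nhdsWithin_le_nhds
  have := le_of_tendsto hlim (b := 2) (by
    filter_upwards [Ioo_mem_nhdsLT (show (0:ℝ) < 1 by norm_num)] with r hr
    exact key r hr.1 hr.2)
  linarith

end Pool.Agent.N280.CHD
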