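import Mathlib
import Pool.Agent.N280.CHD.Max

set_option autoImplicit false

open Set Metric Filter Topology Complex ComplexConjugate InnerProductSpace

namespace Pool.Agent.N280.CHD

/-- basis vectors -/
noncomputable abbrev bv (i : Fin 4) : E4 := EuclideanSpace.single i (1:ℝ)

noncomputable def L1 : ℂ →L[ℝ] E4 := (reCLM.smulRight (bv 0)) + (imCLM.smulRight (bv 1))
noncomputable def L2 : ℂ →L[ℝ] E4 := (reCLM.smulRight (bv 2)) + (imCLM.smulRight (bv 3))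

lemma L1_apply (z : ℂ) : L1 z = z.re • bv 0 + z.im • bv 1 := rfl
lemma L2_apply (z : ℂ) : L2 z = z.re • bv 2 + z.im • bv 3 := rfl

/-- the discs `(z, ε z²)` -/
noncomputable def disc (ε : ℝ) (z : ℂ) : E4 := L1 z + ε • L2 (z ^ 2)

lemma co0 (a b : ℂ) (ε : ℝ) : (L1 a + ε • L2 b) 0 = a.re := by
  simp [L1_apply, L2_apply, bv]
lemma co1 (a b : ℂ) (ε : ℝ) : (L1 a + ε • L2 b) 1 = a.im := by
  simp [L1_apply, L2_apply, bv]
lemma co2 (a b : ℂ) (ε : ℝ) : (L1 a + ε • L2 b) 2 = ε * b.re := by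
  simp [L1_apply, L2_apply, bv]
lemma co3 (a b : ℂ) (ε : ℝ) : (L1 a + ε • L2 b) 3 = ε * b.im := by
  simp [L1_apply, L2_apply, bv]

lemma sq_hasFDeriv (z : ℂ) : HasFDerivAt (𝕜 := ℝ) (fun w : ℂ => w ^ 2)
    ((ContinuousLinearMap.toSpanSingleton ℂ (2 * z)).restrictScalars ℝ) z := by
  have h : HasDerivAt (fun w : ℂ => w ^ 2) (2 * z) z := by simpa using hasDerivAt_pow 2 z
  exact h.hasFDerivAt.restrictScalars ℝ

lemma disc_hasFDeriv (ε : ℝ) (z : ℂ) : HasFDerivAt (disc ε)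
    (L1 + ε • L2.comp ((ContinuousLinearMap.toSpanSingleton ℂ (2 * z)).restrictScalars ℝ)) z := by
  unfold disc
  exact L1.hasFDerivAt.add ((L2.hasFDerivAt.comp z (sq_hasFDeriv z)).const_smul ε)

lemma disc_fderiv (ε : ℝ) (z v : ℂ) :
    fderiv ℝ (disc ε) z v = L1 v + ε • L2 (v * (2 * z)) := by
  rw [(disc_hasFDeriv ε z).fderiv]
  simp

lemma disc_fderiv2 (ε : ℝ) (z u v : ℂ) :
    fderiv ℝ (fun w => fderiv ℝ (disc ε) w v) z u = ε • L2 (v * (2 * u)) := by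
  have h1 : (fun w => fderiv ℝ (disc ε) w v) = fun w => L1 v + ε • L2 (v * (2 * w)) := by
    funext w; exact disc_fderiv ε w v
  rw [h1]
  have h2 : HasFDerivAt (𝕜 := ℝ) (fun w : ℂ => v * (2 * w))
      ((ContinuousLinearMap.toSpanSingleton ℂ (v * 2)).restrictScalars ℝ) z := by
    have h : HasDerivAt (fun w : ℂ => v * (2 * w)) (v * 2) z := by
      simpa using ((hasDerivAt_id z).const_mul (2:ℂ)).const_mul v
    exact h.hasFDerivAt.restrictScalars ℝ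
  have h3 : HasFDerivAt (fun w => L1 v + ε • L2 (v * (2 * w)))
      (ε • L2.comp ((ContinuousLinearMap.toSpanSingleton ℂ (v * 2)).restrictScalars ℝ)) z :=
    ((L2.hasFDerivAt.comp z h2).const_smul ε).const_add _
  rw [h3.fderiv]
  simp only [smul_apply, ContinuousLinearMap.comp_apply,
    ContinuousLinearMap.coe_restrictScalars', ContinuousLinearMap.toSpanSingleton_apply,
    smul_eq_mul]
  congr 2
  ring

lemma disc_contDiff (ε : ℝ) : ContDiff ℝ 2 (disc ε) := by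
  unfold disc
  have h1 : ContDiff ℝ 2 (fun z : ℂ => z ^ 2) := contDiff_id.pow 2
  exact L1.contDiff.add ((L2.contDiff.comp h1).const_smul ε)

lemma disc_mem {ε : ℝ} (hε : ε ^ 2 ≤ 1) {z : ℂ} (hz : z ∈ ball (0:ℂ) 1) : disc ε z ∈ Om := by
  rw [mem_ball_zero_iff] at hz
  have h1 : z.re ^ 2 + z.im ^ 2 < 1 := by
    have : z.re ^ 2 + z.im ^ 2 = ‖z‖ ^ 2 := by
      rw [← Complex.normSq_eq_norm_sq, Complex.normSq_apply]; ring
    rw [this]
    nlinarith [norm_nonneg z]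
  have h2 : hh (disc ε z) < 1 := by
    unfold hh disc
    rw [co2, co3]
    have h3 : (ε * (z ^ 2).re) ^ 2 + (ε * (z ^ 2).im) ^ 2 = ε ^ 2 * (z.re ^ 2 + z.im ^ 2) ^ 2 := by
      rw [pow_two z, Complex.mul_re, Complex.mul_im]; ring
    rw [h3]
    have h4 : 0 ≤ z.re ^ 2 + z.im ^ 2 := by positivity
    nlinarith [mul_nonneg h4 h4]
  refine ⟨by show hh _ < 3 / 2; linarith, ?_⟩
  unfold rho
  rw [expNegInvGlue.zero_of_nonpos (by linarith)]
  unfold disc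
  rw [co0, co1]
  linarith

lemma norm_sq4 (x : E4) : ‖x‖ ^ 2 = x 0 ^ 2 + x 1 ^ 2 + x 2 ^ 2 + x 3 ^ 2 := by
  rw [EuclideanSpace.norm_sq_eq]
  simp only [Fin.sum_univ_four, Real.norm_eq_abs, sq_abs]

lemma inner4 (x y : E4) : inner ℝ x y = x 0 * y 0 + x 1 * y 1 + x 2 * y 2 + x 3 * y 3 := by
  rw [PiLp.inner_apply]
  simp only [Fin.sum_univ_four, RCLike.inner_apply, conj_trivial]
  ring

lemma disc_conformal (ε : ℝ) (z : ℂ) :
    ‖fderiv ℝ (disc ε) z (1 : ℂ)‖ = ‖fderiv ℝ (disc ε) z Complex.I‖ ∧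
    inner ℝ (fderiv ℝ (disc ε) z (1 : ℂ)) (fderiv ℝ (disc ε) z Complex.I) = 0 := by
  constructor
  · have : ‖fderiv ℝ (disc ε) z (1 : ℂ)‖ ^ 2 = ‖fderiv ℝ (disc ε) z Complex.I‖ ^ 2 := by
      rw [norm_sq4, norm_sq4, disc_fderiv, disc_fderiv, co0, co1, co2, co3, co0, co1, co2, co3]
      simp
      ring
    exact (pow_left_inj₀ (norm_nonneg _) (norm_nonneg _) two_ne_zero).1 this
  · rw [inner4, disc_fderiv, disc_fderiv, co0, co1, co2, co3, co0, co1, co2, co3]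
    simp
    ring

lemma disc_harmonic (ε : ℝ) (z : ℂ) :
    fderiv ℝ (fun w => fderiv ℝ (disc ε) w (1 : ℂ)) z (1 : ℂ) +
      fderiv ℝ (fun w => fderiv ℝ (disc ε) w Complex.I) z Complex.I = 0 := by
  rw [disc_fderiv2, disc_fderiv2, ← smul_add, ← map_add]
  have : (1:ℂ) * (2 * 1) + I * (2 * I) = 0 := by
    have := Complex.I_mul_I
    linear_combination 2 * this
  rw [this, map_zero, smul_zero]

lemma disc_zero (ε : ℝ) : disc ε 0 = 0 := by
  unfold disc; simp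

lemma disc_d1 (ε : ℝ) : fderiv ℝ (disc ε) 0 (1:ℂ) = (1:ℝ) • bv 0 := by
  rw [disc_fderiv]; simp [L1_apply]

lemma disc_dI (ε : ℝ) : fderiv ℝ (disc ε) 0 I = (1:ℝ) • bv 1 := by
  rw [disc_fderiv]; simp [L1_apply]

/-- maximality -/
lemma max_le_one {g : ℂ → E4} {s : ℝ}
    (hC : ContDiffOn ℝ 2 g (ball (0 : ℂ) 1)) (hΩ : ∀ z ∈ ball (0 : ℂ) 1, g z ∈ Om)
    (hh : ∀ z ∈ ball (0 : ℂ) 1,
      fderiv ℝ (fun w => fderiv ℝ g w (1 : ℂ)) z (1 : ℂ) +
        fderiv ℝ (fun w => fderiv ℝ g w Complex.I) z Complex.I = 0)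
    (h1 : fderiv ℝ g 0 (1 : ℂ) = s • bv 0) (h2 : fderiv ℝ g 0 Complex.I = s • bv 1) :
    s ≤ 1 := by
  have hCA : ∀ z ∈ ball (0 : ℂ) 1, ContDiffAt ℝ 2 g z := fun z hz =>
    hC.contDiffAt (isOpen_ball.mem_nhds hz)
  have hdd : ∀ z ∈ ball (0 : ℂ) 1, DifferentiableAt ℝ (fderiv ℝ g) z := fun z hz =>
    ((hCA z hz).fderiv_right (m := 1) (by norm_num)).differentiableAt one_ne_zero
  have hlap : ∀ z ∈ ball (0 : ℂ) 1, Laplacian.laplacian g z = 0 := by
    intro z hz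
    rw [laplacian_eq_iteratedFDeriv_complexPlane]
    simp only [iteratedFDeriv_two_apply, Fin.isValue, Matrix.cons_val_zero, Matrix.cons_val_one]
    have h3 := hh z hz
    rw [fderiv_clm_apply (hdd z hz) (by fun_prop), fderiv_clm_apply (hdd z hz) (by fun_prop)] at h3
    simpa using h3
  have hharm : HarmonicOnNhd g (ball (0 : ℂ) 1) := by
    intro z hz
    refine ⟨hCA z hz, ?_⟩
    filter_upwards [isOpen_ball.mem_nhds hz] with w hw
    exact hlap w hw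
  have hcomp : ∀ i : Fin 4, ∃ F : ℂ → ℂ, AnalyticOnNhd ℂ F (ball 0 1) ∧
      (ball (0:ℂ) 1).EqOn (fun z ↦ (F z).re) (fun z => g z i) := by
    intro i
    have := hharm.comp_CLM (EuclideanSpace.proj i : E4 →L[ℝ] ℝ)
    obtain ⟨F, hF1, hF2⟩ := this.exists_analyticOnNhd_ball_re_eq
    exact ⟨F, hF1, hF2⟩
  obtain ⟨F₀, hF0, hF0'⟩ := hcomp 0
  obtain ⟨F₁, hF1, hF1'⟩ := hcomp 1
  have hder : ∀ (i : Fin 4) (F : ℂ → ℂ), AnalyticOnNhd ℂ F (ball 0 1) →
      (ball (0:ℂ) 1).EqOn (fun z ↦ (F z).re) (fun z => g z i) → ∀ v : ℂ,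
      (deriv F 0 * v).re = (fderiv ℝ g 0 v) i := by
    intro i F hF hF' v
    have h0 : (0:ℂ) ∈ ball (0:ℂ) 1 := mem_ball_self one_pos
    have e1 : HasFDerivAt (fun z => g z i) ((EuclideanSpace.proj i : E4 →L[ℝ] ℝ).comp
        (fderiv ℝ g 0)) 0 :=
      (EuclideanSpace.proj i : E4 →L[ℝ] ℝ).hasFDerivAt.comp 0
        ((hCA 0 h0).differentiableAt two_ne_zero).hasFDerivAt
    have e2 : HasFDerivAt (fun z => (F z).re) (reCLM.comp
        ((ContinuousLinearMap.toSpanSingleton ℂ (deriv F 0)).restrictScalars ℝ)) 0 := by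
      have := (hF 0 h0).differentiableAt.hasDerivAt.hasFDerivAt.restrictScalars ℝ
      exact reCLM.hasFDerivAt.comp 0 this
    have e3 : HasFDerivAt (fun z => (F z).re) ((EuclideanSpace.proj i : E4 →L[ℝ] ℝ).comp
        (fderiv ℝ g 0)) 0 := by
      refine e1.congr_of_eventuallyEq ?_
      filter_upwards [isOpen_ball.mem_nhds h0] with w hw
      exact hF' hw
    have e4 := e2.unique e3
    have e5 := congrArg (fun L : ℂ →L[ℝ] ℝ => L v) e4
    simp only [ContinuousLinearMap.comp_apply, ContinuousLinearMap.coe_restrictScalars',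
      ContinuousLinearMap.toSpanSingleton_apply, smul_eq_mul, reCLM_apply] at e5
    rw [mul_comm]
    exact e5
  have a1 := hder 0 F₀ hF0 hF0' 1
  have a2 := hder 1 F₁ hF1 hF1' I
  rw [h1] at a1
  rw [h2] at a2
  have b := pair_bound hF0.differentiableOn hF1.differentiableOn (by
    intro z hz
    have c0 := hF0' hz
    have c1 := hF1' hz
    simp only at c0 c1
    rw [c0, c1]
    exact (Om_lt (hΩ z hz)).le)
  simp [bv] at a1 a2
  linarith

end Pool.Agent.N280.CHD
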